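import Pool.Agent.Run7.h843.L11
import Pool.Agent.N916.GB.Num

/-!
# The law of the Selmer groups and the 2-torsion of the Tate-Shafarevich groups of the twists of
# products of elliptic curves without complex multiplication

Let `u`, `v` be coprime integers, one of them odd, the other even and `u v ≠ 0`, and
`r = u² + v²`, `s = u² - 2 u v - v²`, `t = u² + 2 u v - v²`, so that `s² + t² = 2 r²`. Let
`E^m : y² = x³ - 4 r m x² + 2 s² m² x` and `E'^m : y² = x³ + 8 r m x² + 8 t² m² x`, the quadratic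
twists by `m` of two 2-isogenous curves without complex multiplication. The number `m` is admissible
for `(u, v)` if it is positive, odd and squarefree, `- r m` is not a square modulo any prime divisor
of `s` and `r m` is not a square modulo any prime divisor of `t`.

Let `M m` be the matrix over `𝔽₂` with rows and columns indexed by the prime divisors of `m` which are
`1` or `7` modulo `8`; for `p ≠ q` the entry is `1` if `q` is not a square modulo `p`, else `0`; the
entry at `p = q` is the number of the prime divisors `l` of `m` which are not squares modulo `p`, plus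
`1` if `p` is `7` or `9` modulo `16`. It does not depend on `(u, v)`. Let `k` be its corank.

1. If `m` is admissible for `(u, v)`, then both Selmer groups of the isogenies between `E^m` and
   `E'^m` have the order `2 ^ (k + 1)` exactly, `Ш(E^m/ℚ)[2]` is finite and
   `2 ^ rank E^m(ℚ) * #Ш(E^m/ℚ)[2] ≤ 4 ^ k`; if `E^m(ℚ)` is finite, `2 ^ k ≤ #Ш(E^m/ℚ)[2]`.
2. Let `I` be a nonempty finite set of such pairs, and consider the `m` which are admissible for all
   the pairs of `I`, also those in a class `b` modulo `N` prime to `N`, provided that there is one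
   (they have a positive lower density). For every `k ≥ 0` exactly the proportion
   `η k = 2 ^ (- k²) ∏_{i ≥ 1} (1 - 2^{-i}) / ∏_{i ≤ k} (1 - 2^{-i})²`
   of these `m` has the property that all the Selmer groups of (1), `(u, v)` in `I`, have the order
   `2 ^ (k + 1)`; for exactly the proportion `1 - η k` none of them has this order.
3. The numbers `η k` have the sum `1`. The lower proportion of the `m` with
   `2 ^ rank E^m(ℚ) * #Ш(E^m/ℚ)[2] ≤ 4 ^ k` for all `(u, v)` in `I` is at least `η 0 + ... + η k`,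
   which is more than `0.866`, `0.994`, `0.9996` for `k = 1, 2, 3`.
4. There is such an `m` if the numbers `s t` of the pairs in `I` are pairwise coprime, and there are
   infinitely many pairs with pairwise coprime numbers `s t`.

The proof: the local conditions of the two isogenies over all completions of `ℚ`, for all vectors of
the kernels of `M m` and its transpose (`Run7/h843/L5` to `L8`, on the base of `N1` to `N6`), the
2-descent of `Pool/Agent/Y682` (`L9`), the cocycles of `Pool/Agent/Y698/SG` (`L10`), the moments of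
the number of the solutions of a random system (`Run7/h741/NT`, `L1` to `L4`), the classes (`L11`).
-/

set_option autoImplicit false

open Filter Topology

namespace Pool.Agent.Results.MP_03e5d0_nt.CorankLawNonCMTwists

/-- `u² + v²` -/
def r (u v : ℤ) : ℤ := u ^ 2 + v ^ 2

/-- `u² - 2 u v - v²` -/
def s (u v : ℤ) : ℤ := u ^ 2 - 2 * u * v - v ^ 2

/-- `u² + 2 u v - v²` -/
def t (u v : ℤ) : ℤ := u ^ 2 + 2 * u * v - v ^ 2

/-- the curve `y² = x³ - 4 r m x² + 2 s² m² x` over `ℚ` -/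
def E (u v : ℤ) (m : ℕ) : WeierstrassCurve ℚ :=
  { a₁ := 0, a₂ := -4 * (r u v : ℚ) * m, a₃ := 0, a₄ := 2 * (s u v : ℚ) ^ 2 * (m : ℚ) ^ 2, a₆ := 0 }

/-- the pairs of parameters -/
structure Pair (u v : ℤ) : Prop where
  coprime : IsCoprime u v
  parity : Odd (u + v)
  ne : u * v ≠ 0

/-- `m` is admissible for `(u, v)` -/
structure Admissible (u v : ℤ) (m : ℕ) : Prop where
  squarefree : Squarefree m
  odd : Odd m
  atS : ∀ p : ℕ, p.Prime → (p : ℤ) ∣ s u v → ¬ IsSquare ((-(r u v * m) : ℤ) : ZMod p)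
  atT : ∀ p : ℕ, p.Prime → (p : ℤ) ∣ t u v → ¬ IsSquare ((r u v * m : ℤ) : ZMod p)

/-- `m` is admissible for all the pairs in `I` -/
def Common (I : Finset (ℤ × ℤ)) (m : ℕ) : Prop :=
  Squarefree m ∧ Odd m ∧ ∀ q ∈ I, Admissible q.1 q.2 m

/-- there is a point `(x, y)` with `x ≠ 0` and `x ∈ d F*²` on `y² = x (x² + A x + B)` over `F` -/
def Loc (F : Type) [Field F] (A B : F) (d : ℤ) : Prop :=
  ∃ x y z : F, x ≠ 0 ∧ y ^ 2 = x * (x ^ 2 + A * x + B) ∧ x = d * z ^ 2

/-- the Selmer group in `ℚ*/ℚ*²` of the curve `y² = x (x² + A x + B)` for the isogeny of degree two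
onto it, represented by squarefree integers -/
def Sel (A B : ℤ) : Set ℤ := {d | Squarefree d ∧ (∀ (p : ℕ) [Fact p.Prime],
  Loc ℚ_[p] (A : ℚ_[p]) (B : ℚ_[p]) d) ∧ Loc ℝ (A : ℝ) (B : ℝ) d}

/-- the Selmer group of `E^m` -/
def SelE (u v : ℤ) (m : ℕ) : Set ℤ := Sel (-4 * r u v * m) (2 * s u v ^ 2 * m ^ 2)

/-- the Selmer group of the isogenous curve `y² = x³ + 8 r m x² + 8 t² m² x` -/
def SelE' (u v : ℤ) (m : ℕ) : Set ℤ := Sel (8 * r u v * m) (8 * t u v ^ 2 * m ^ 2)

/-- the elements of `Ш(W/ℚ)` killed by two -/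
def ShaTwo (W : WeierstrassCurve ℚ) : Type := {x : Pool.Agent.TH841.NF.D.Sha W // 2 • x = 0}

/-- the rank of `W(ℚ)` -/
noncomputable def rank (W : WeierstrassCurve ℚ) : ℕ := Module.finrank ℤ W.toAffine.Point

/-- the prime divisors of `m` which are `1` or `7` modulo `8` -/
def S (m : ℕ) : Finset ℕ := m.primeFactors.filter fun p => p % 8 = 1 ∨ p % 8 = 7

open Classical in
/-- `1` if `q` is not a square modulo `p`, else `0` -/
noncomputable def nr (p q : ℕ) : ZMod 2 := if IsSquare (q : ZMod p) then 0 else 1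

/-- `1` if `p` is `7` or `9` modulo `16`, else `0` -/
def f (p : ℕ) : ZMod 2 := if p % 16 = 7 ∨ p % 16 = 9 then 1 else 0

/-- the matrix -/
noncomputable def M (m : ℕ) : Matrix (S m) (S m) (ZMod 2) := fun p q =>
  if p = q then ∑ l ∈ m.primeFactors, nr p l + f p else nr p q

/-- the corank of the matrix -/
noncomputable def corank (m : ℕ) : ℕ := (S m).card - (M m).rank

/-- the number of the `m ≤ X` in the class `C` with the property `Q` -/
noncomputable def num (C Q : ℕ → Prop) (X : ℕ) : ℕ := Nat.card {m : ℕ // m ≤ X ∧ C m ∧ Q m}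

/-- among the numbers of the class `C` exactly the proportion `θ` has the property `Q` -/
def Proportion (C Q : ℕ → Prop) (θ : ℝ) : Prop :=
  Tendsto (fun X : ℕ => (num C Q X : ℝ) / (num C (fun _ => True) X : ℝ)) atTop (𝓝 θ)

/-- the proportions -/
noncomputable def η (k : ℕ) : ℝ := (∏' i : ℕ, (1 - (1 / 2 : ℝ) ^ (i + 1))) /
  (2 ^ (k ^ 2) * (∏ i ∈ Finset.range k, (1 - (1 / 2 : ℝ) ^ (i + 1))) ^ 2)

section proof

open Run7.h843.R
open Run7.h843.N (Good Com Cond Adm)
open Run7.h843.L (gk gk_eq Qn card_K1 gk_iff Gk)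
open Pool.Agent.Y682 (MP)

theorem M_eq (m : ℕ) : @Eq (Matrix (SR m) (SR m) (ZMod 2)) (M m) (MatR m) := by
  refine Matrix.ext fun p q => ?_
  show (if p = q then ∑ r ∈ m.primeFactors, Pool.Agent.Y703.CQ.nr p r + f16 p
    else Pool.Agent.Y703.CQ.nr p q) = Pool.Agent.Y703.CQ.nr p q +
      if p = q then ∑ r ∈ m.primeFactors, Pool.Agent.Y703.CQ.nr p r + f16 p else 0
  by_cases h : p = q
  · rw [if_pos h, if_pos h, ← h, Run7.h843.Desc.nr_self, zero_add]
  · rw [if_neg h, if_neg h, add_zero]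

theorem rank_eq_rank (m : ℕ) : (M m).rank = (MatR m).rank :=
  congrArg (fun N : Matrix (SR m) (SR m) (ZMod 2) => N.rank) (M_eq m)

theorem corank_iff (m k : ℕ) : corank m = k ↔ (MatR m).rank + k = (SR m).card := by
  have h1 : (MatR m).rank ≤ (SR m).card := by
    refine (Matrix.rank_le_card_width _).trans (le_of_eq ?_)
    rw [Fintype.card_coe]
  have h2 : corank m = (SR m).card - (MatR m).rank := by
    unfold corank
    rw [rank_eq_rank]
    rfl
  rw [h2]
  omega

theorem good_of {u v : ℤ} (h : Pair u v) : Good (u, v) :=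
  ⟨h.coprime, Int.odd_iff.1 h.parity⟩

theorem adm_of {u v : ℤ} {m : ℕ} (hm : Admissible u v m) : Adm u v m :=
  ⟨hm.squarefree, Nat.odd_iff.1 hm.odd, hm.atS, hm.atT⟩

theorem η_eq (k : ℕ) : η k = gk k := (gk_eq k).symm

theorem rank_MP (W : WeierstrassCurve ℚ) : rank W = Module.finrank ℤ (MP W) := by
  have key : ∀ d : DecidableEq ℚ, @Module.finrank ℤ W.toAffine.Point _
      (@WeierstrassCurve.Affine.Point.instAddCommGroup ℚ _ W.toAffine d).toAddCommMonoid
      (@AddCommGroup.toIntModule _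
        (@WeierstrassCurve.Affine.Point.instAddCommGroup ℚ _ W.toAffine d)) =
      Module.finrank ℤ (MP W) := by
    intro d
    rw [Subsingleton.elim d (Classical.decEq ℚ)]
    rfl
  exact key _

theorem isT {u v : ℤ} (h : Pair u v) {m : ℕ} (hm : m ≠ 0) :
    Pool.Agent.Y682.IsT (E u v m) ((-4 * r u v * m : ℤ) : ℚ) ((2 * s u v ^ 2 * m ^ 2 : ℤ) : ℚ) := by
  have hg := good_of h
  have hs0 : (s u v : ℚ) ≠ 0 := by exact_mod_cast hg.s0
  have ht0 : (t u v : ℚ) ≠ 0 := by exact_mod_cast hg.t0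
  have hm0 : (m : ℚ) ≠ 0 := by exact_mod_cast hm
  refine ⟨rfl, ?_, rfl, ?_, rfl, ?_, ?_⟩
  · unfold E
    push_cast
    rfl
  · unfold E
    push_cast
    rfl
  · push_cast
    exact mul_ne_zero (mul_ne_zero two_ne_zero (pow_ne_zero 2 hs0)) (pow_ne_zero 2 hm0)
  · have e : (((-4 * r u v * (m : ℤ) : ℤ) : ℚ)) ^ 2 -
        4 * ((2 * s u v ^ 2 * (m : ℤ) ^ 2 : ℤ) : ℚ) = 8 * (t u v : ℚ) ^ 2 * (m : ℚ) ^ 2 := by
      unfold r s t
      push_cast
      ring
    rw [e]
    exact mul_ne_zero (mul_ne_zero (by norm_num) (pow_ne_zero 2 ht0)) (pow_ne_zero 2 hm0)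

theorem E_WF {u v : ℤ} {m : ℕ} : E u v m =
    Pool.Agent.Y698.SG.Cv.WF ℚ (-4 * r u v * m) (2 * s u v ^ 2 * m ^ 2) := by
  unfold E Pool.Agent.Y698.SG.Cv.WF Pool.Agent.Y668.Wt
  simp

theorem sel1 {u v : ℤ} (h : Pair u v) {m : ℕ} (hm : Admissible u v m) (k : ℕ) :
    Nat.card (SelE u v m) = 2 ^ (k + 1) ↔ corank m = k := by
  have h1 : Nat.card (SelE u v m) = 2 * Nat.card (Run7.h843.L.K1 m) :=
    Run7.h843.L.card_Sel1 h.coprime (Int.odd_iff.1 h.parity) (adm_of hm)
  rw [h1, corank_iff, ← card_K1, pow_succ, mul_comm]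
  exact ⟨fun h => Nat.eq_of_mul_eq_mul_right two_pos h, fun h => by rw [h]⟩

theorem sel2 {u v : ℤ} (h : Pair u v) {m : ℕ} (hm : Admissible u v m) (k : ℕ) :
    Nat.card (SelE' u v m) = 2 ^ (k + 1) ↔ corank m = k := by
  have h1 : Nat.card (SelE' u v m) = 2 * Nat.card (Run7.h843.L.K2 m) :=
    Run7.h843.L.card_Sel2 h.coprime (Int.odd_iff.1 h.parity) (adm_of hm)
  rw [h1, corank_iff, ← Run7.h843.L.card_K2, pow_succ, mul_comm]
  exact ⟨fun h => Nat.eq_of_mul_eq_mul_right two_pos h, fun h => by rw [h]⟩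

theorem rank_sha {u v : ℤ} (h : Pair u v) {m : ℕ} (hm : Admissible u v m) :
    Finite (ShaTwo (E u v m)) ∧ 2 ^ rank (E u v m) * Nat.card (ShaTwo (E u v m)) ≤ 4 ^ corank m := by
  obtain ⟨h1, h2⟩ := Run7.h843.L.rank_sha h.coprime (Int.odd_iff.1 h.parity) (adm_of hm)
    ((corank_iff m _).1 rfl) (isT h hm.squarefree.ne_zero)
  rw [rank_MP]
  exact ⟨h1, h2⟩

theorem sha_lower {u v : ℤ} (h : Pair u v) {m : ℕ} (hm : Admissible u v m)
    (hf : Finite (E u v m).toAffine.Point) : 2 ^ corank m ≤ Nat.card (ShaTwo (E u v m)) := by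
  have h1 := (rank_sha h hm).1
  unfold ShaTwo at h1 ⊢
  rw [E_WF] at h1 hf ⊢
  exact Run7.h843.L.sha_lower h.coprime (Int.odd_iff.1 h.parity) (adm_of hm)
    ((corank_iff m _).1 rfl) hf h1

theorem common_iff {I : Finset (ℤ × ℤ)} {m : ℕ} : Common I m ↔ Squarefree m ∧ Com I m := by
  constructor
  · rintro ⟨h1, h2, h3⟩
    exact ⟨h1, Nat.odd_iff.1 h2, fun q hq => ⟨(h3 q hq).atS, (h3 q hq).atT⟩⟩
  · rintro ⟨h1, h2, h3⟩
    exact ⟨h1, Nat.odd_iff.2 h2, fun q hq => ⟨h1, Nat.odd_iff.2 h2, (h3 q hq).1, (h3 q hq).2⟩⟩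

open Classical in
theorem num_eq {C C' Q Q' : ℕ → Prop} (h0 : ∀ m, C m → m ≠ 0) (hC : ∀ m, C m ↔ C' m)
    (h : ∀ m, C m → (Q m ↔ Q' m)) (X : ℕ) :
    num C Q X = ((Finset.Icc 1 X).filter fun m => C' m ∧ Q' m).card := by
  unfold num
  refine Nat.subtype_card _ fun m => ?_
  rw [Finset.mem_filter, Finset.mem_Icc]
  constructor
  · rintro ⟨⟨-, h2⟩, h3, h4⟩
    have hc := (hC m).2 h3
    exact ⟨h2, hc, (h m hc).2 h4⟩
  · rintro ⟨h2, hc, h5⟩
    exact ⟨⟨Nat.one_le_iff_ne_zero.2 (h0 m hc), h2⟩, (hC m).1 hc, (h m hc).1 h5⟩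

open Classical in
/-- transport of a proportion -/
theorem prop_of {C C' Q Q' : ℕ → Prop} {θ : ℝ} (h0 : ∀ m, C m → m ≠ 0) (hC : ∀ m, C m ↔ C' m)
    (h : ∀ m, C m → (Q m ↔ Q' m)) (ht : Tendsto (fun X : ℕ =>
      (((Finset.Icc 1 X).filter fun m => C' m ∧ Q' m).card : ℝ) /
        (((Finset.Icc 1 X).filter fun m => C' m).card : ℝ)) atTop (𝓝 θ)) : Proportion C Q θ := by
  refine ht.congr fun X => ?_
  rw [num_eq h0 hC h X, num_eq (Q' := fun _ => True) h0 hC (fun _ _ => Iff.rfl) X]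
  simp only [and_true]

open Classical in
/-- the complementary proportion -/
theorem prop_compl {C Q Q' : ℕ → Prop} {θ : ℝ} (h0 : ∀ m, C m → m ≠ 0)
    (h : ∀ m, C m → (Q' m ↔ ¬ Q m)) (hl : ∃ a : ℝ, 0 < a ∧ ∀ᶠ X : ℕ in atTop,
      a * X ≤ (num C (fun _ => True) X : ℝ)) (hq : Proportion C Q θ) : Proportion C Q' (1 - θ) := by
  obtain ⟨a, ha, hX⟩ := hl
  refine (hq.const_sub 1).congr' ?_
  filter_upwards [hX, eventually_ge_atTop 1] with X h1 h2
  have hpos : (0 : ℝ) < num C (fun _ => True) X := by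
    refine lt_of_lt_of_le ?_ h1
    have : (0 : ℝ) < X := by exact_mod_cast h2
    positivity
  have e : num C Q X + num C Q' X = num C (fun _ => True) X := by
    rw [num_eq (Q' := Q) h0 (fun _ => Iff.rfl) (fun _ _ => Iff.rfl),
      num_eq (Q' := fun m => ¬ Q m) h0 (fun _ => Iff.rfl) h,
      num_eq (Q' := fun _ => True) h0 (fun _ => Iff.rfl) (fun _ _ => Iff.rfl)]
    simp only [and_true]
    have h5 := Finset.card_filter_add_card_filter_not (s := (Finset.Icc 1 X).filter C) Q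
    rw [Finset.filter_filter, Finset.filter_filter] at h5
    convert h5
  have e' : (num C Q X : ℝ) + num C Q' X = num C (fun _ => True) X := by exact_mod_cast e
  rw [eq_div_iff hpos.ne', sub_mul, div_mul_cancel₀ _ hpos.ne', one_mul]
  linarith

open Classical in
/-- finite unions -/
theorem prop_union {C : ℕ → Prop} {g : ℕ → ℕ} {θ : ℕ → ℝ} (h0 : ∀ m, C m → m ≠ 0)
    (h : ∀ k, Proportion C (fun m => g m = k) (θ k)) (K : ℕ) :
    Proportion C (fun m => g m < K) (∑ k ∈ Finset.range K, θ k) := by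
  have e : ∀ X : ℕ, (num C (fun m => g m < K) X : ℝ) =
      ∑ k ∈ Finset.range K, (num C (fun m => g m = k) X : ℝ) := by
    intro X
    rw [← Nat.cast_sum]
    congr 1
    rw [num_eq (C' := C) (Q' := fun m => g m < K) h0 (fun _ => Iff.rfl) (fun _ _ => Iff.rfl)]
    refine (congrArg Finset.card (a₂ := (Finset.range K).biUnion fun k =>
      (Finset.Icc 1 X).filter fun m => C m ∧ g m = k) ?_).trans ?_
    · ext m
      simp only [Finset.mem_filter, Finset.mem_biUnion, Finset.mem_range]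
      constructor
      · rintro ⟨h1, h2, h3⟩
        exact ⟨g m, h3, h1, h2, rfl⟩
      · rintro ⟨k, h1, h2, h3, h4⟩
        exact ⟨h2, h3, by rw [h4]; exact h1⟩
    rw [Finset.card_biUnion]
    · refine Finset.sum_congr rfl fun k _ => ?_
      rw [num_eq (C' := C) (Q' := fun m => g m = k) h0 (fun _ => Iff.rfl) (fun _ _ => Iff.rfl)]
      congr!
    · intro i _ j _ hij
      rw [Function.onFun, Finset.disjoint_left]
      intro m h1 h2
      rw [Finset.mem_filter] at h1 h2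
      exact hij (h1.2.2.symm.trans h2.2.2)
  refine (tendsto_finsetSum (Finset.range K) fun k _ => h k).congr fun X => ?_
  rw [e, Finset.sum_div]

/-- the corank has the law `η` -/
theorem prop_corank {I : Finset (ℤ × ℤ)} (hP : ∀ q ∈ I, Pair q.1 q.2) {N b : ℕ}
    (hN : 0 < N) (hbc : b.Coprime N) (hex : ∃ m, Common I m ∧ m % N = b) (k : ℕ) :
    Proportion (fun m => Common I m ∧ m % N = b) (fun m => corank m = k) (η k) := by
  have hg : ∀ q ∈ I, Good q := fun q hq => good_of (hP q hq)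
  obtain ⟨m0, hm0, hb0⟩ := hex
  have h0 : Com I m0 ∧ m0 % N = b := ⟨(common_iff.1 hm0).2, hb0⟩
  have hne : ∀ m, (Common I m ∧ m % N = b) → m ≠ 0 := fun m h => h.1.1.ne_zero
  have hC : ∀ m, (Common I m ∧ m % N = b) ↔ (Squarefree m ∧ Com I m ∧ m % N = b) := fun m => by
    rw [common_iff, and_assoc]
  rw [η_eq]
  refine prop_of (Q' := fun m => Gk k 7 f16 m.primeFactors) hne hC
    (fun m _ => (corank_iff m k).trans (gk_iff m k).symm) ?_
  refine (Run7.h843.L.dens_jointk k hg hN hbc h0 f16).congr fun X => ?_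
  congr 3 <;> ext n <;> simp only [Finset.mem_filter, and_assoc]

theorem prop_low {I : Finset (ℤ × ℤ)} (hP : ∀ q ∈ I, Pair q.1 q.2) {N b : ℕ}
    (hN : 0 < N) (hbc : b.Coprime N) (hex : ∃ m, Common I m ∧ m % N = b) :
    ∃ a : ℝ, 0 < a ∧ ∀ᶠ X : ℕ in atTop,
      a * X ≤ (num (fun m => Common I m ∧ m % N = b) (fun _ => True) X : ℝ) := by
  have hg : ∀ q ∈ I, Good q := fun q hq => good_of (hP q hq)
  obtain ⟨m0, hm0, hb0⟩ := hex
  have h0 : Com I m0 ∧ m0 % N = b := ⟨(common_iff.1 hm0).2, hb0⟩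
  have hne : ∀ m, (Common I m ∧ m % N = b) → m ≠ 0 := fun m h => h.1.1.ne_zero
  have hC : ∀ m, (Common I m ∧ m % N = b) ↔ (Squarefree m ∧ Com I m ∧ m % N = b) := fun m => by
    rw [common_iff, and_assoc]
  obtain ⟨a, ha, h⟩ := Run7.h843.N.low_joint hg hN hbc h0
  refine ⟨a, ha, h.mono fun X hX => hX.trans ?_⟩
  rw [num_eq (Q' := fun _ => True) hne hC (fun _ _ => Iff.rfl) X]
  refine Nat.cast_le.2 (Finset.card_le_card fun n hn => ?_)
  simp only [Finset.mem_filter, and_true] at hn ⊢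
  exact hn

/-- monotonicity of the counts -/
theorem num_mono {C Q Q' : ℕ → Prop} (h : ∀ m, C m → Q m → Q' m) (X : ℕ) :
    num C Q X ≤ num C Q' X := by
  unfold num
  have hf : Finite {m : ℕ // m ≤ X ∧ C m ∧ Q' m} :=
    ((Set.finite_Iic X).subset fun m hm => hm.1).to_subtype
  exact Nat.card_le_card_of_injective (fun m => ⟨m.1, m.2.1, m.2.2.1, h m.1 m.2.2.1 m.2.2.2⟩)
    fun a b h => Subtype.ext (congrArg (fun x : {m : ℕ // m ≤ X ∧ C m ∧ Q' m} => x.1) h)

theorem prop_main {I : Finset (ℤ × ℤ)} (hI : I.Nonempty) (hP : ∀ q ∈ I, Pair q.1 q.2) {N b : ℕ}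
    (hN : 0 < N) (hbc : b.Coprime N) (hex : ∃ m, Common I m ∧ m % N = b) (k : ℕ) :
    Proportion (fun m => Common I m ∧ m % N = b) (fun m => ∀ q ∈ I,
      Nat.card (SelE q.1 q.2 m) = 2 ^ (k + 1) ∧ Nat.card (SelE' q.1 q.2 m) = 2 ^ (k + 1)) (η k) ∧
    Proportion (fun m => Common I m ∧ m % N = b) (fun m => ∀ q ∈ I,
      Nat.card (SelE q.1 q.2 m) ≠ 2 ^ (k + 1) ∧ Nat.card (SelE' q.1 q.2 m) ≠ 2 ^ (k + 1))
        (1 - η k) ∧
    ∀ c : ℝ, c < ∑ i ∈ Finset.range (k + 1), η i → ∀ᶠ X : ℕ in atTop,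
      c * (num (fun m => Common I m ∧ m % N = b) (fun _ => True) X : ℝ) ≤
      (num (fun m => Common I m ∧ m % N = b) (fun m => ∀ q ∈ I,
        2 ^ rank (E q.1 q.2 m) * Nat.card (ShaTwo (E q.1 q.2 m)) ≤ 4 ^ k) X : ℝ) := by
  have hne : ∀ m, (Common I m ∧ m % N = b) → m ≠ 0 := fun m h => h.1.1.ne_zero
  have hl := prop_low hP hN hbc hex
  have hc := prop_corank hP hN hbc hex
  obtain ⟨q0, hq0⟩ := hI
  have hk : ∀ m, (Common I m ∧ m % N = b) → ((∀ q ∈ I,
      Nat.card (SelE q.1 q.2 m) = 2 ^ (k + 1) ∧ Nat.card (SelE' q.1 q.2 m) = 2 ^ (k + 1)) ↔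
        corank m = k) := by
    intro m hm
    constructor
    · intro h
      exact (sel1 (hP q0 hq0) (hm.1.2.2 q0 hq0) k).1 (h q0 hq0).1
    · intro h q hq
      exact ⟨(sel1 (hP q hq) (hm.1.2.2 q hq) k).2 h, (sel2 (hP q hq) (hm.1.2.2 q hq) k).2 h⟩
  have tr : ∀ {C Q Q' : ℕ → Prop} {θ : ℝ}, (∀ m, C m → m ≠ 0) → (∀ m, C m → (Q m ↔ Q' m)) →
      Proportion C Q' θ → Proportion C Q θ := by
    intro C Q Q' θ h0 h hp
    refine Filter.Tendsto.congr (fun X => ?_) hp
    congr 2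
    exact le_antisymm (num_mono (fun m hm hq => (h m hm).2 hq) X)
      (num_mono (fun m hm hq => (h m hm).1 hq) X)
  refine ⟨tr hne hk (hc k), ?_, ?_⟩
  · refine prop_compl (Q := fun m => corank m = k) hne (fun m hm => ?_) hl (hc k)
    constructor
    · intro h h'
      exact (h q0 hq0).1 ((sel1 (hP q0 hq0) (hm.1.2.2 q0 hq0) k).2 h')
    · intro h q hq
      exact ⟨fun h' => h ((sel1 (hP q hq) (hm.1.2.2 q hq) k).1 h'),
        fun h' => h ((sel2 (hP q hq) (hm.1.2.2 q hq) k).1 h')⟩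
  · intro c hcη
    have h1 := prop_union hne hc (k + 1)
    obtain ⟨a, ha, hX⟩ := hl
    filter_upwards [h1.eventually (lt_mem_nhds hcη), hX, eventually_ge_atTop 1] with X h2 h3 h4
    have hpos : (0 : ℝ) < num (fun m => Common I m ∧ m % N = b) (fun _ => True) X := by
      refine lt_of_lt_of_le ?_ h3
      have : (0 : ℝ) < X := by exact_mod_cast h4
      positivity
    rw [lt_div_iff₀ hpos] at h2
    refine h2.le.trans (Nat.cast_le.2 (num_mono (fun m hm hq q hqI => ?_) X))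
    refine (rank_sha (hP q hqI) (hm.1.2.2 q hqI)).2.trans ?_
    exact Nat.pow_le_pow_right (by norm_num) (Nat.lt_succ_iff.1 hq)

theorem one_lt {u v : ℤ} (h : Pair u v) : 1 < |s u v * t u v| := by
  have hg := good_of h
  by_contra hcon
  have h1 : |s u v * t u v| = 1 := by
    have h2 : 0 < |s u v * t u v| := abs_pos.2 (mul_ne_zero hg.s0 hg.t0)
    omega
  rw [abs_mul] at h1
  have h2 : |s u v| = 1 := by
    have := Int.eq_one_or_neg_one_of_mul_eq_one h1
    rcases this with h | h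
    · exact h
    · have := abs_nonneg (s u v)
      omega
  have h3 : |t u v| = 1 := by rw [h2, one_mul] at h1; exact h1
  apply h.ne
  have e : t u v - s u v = 4 * (u * v) := by unfold s t; ring
  rcases abs_eq (zero_le_one' ℤ) |>.1 h2 with h4 | h4 <;>
    rcases abs_eq (zero_le_one' ℤ) |>.1 h3 with h5 | h5 <;> omega

theorem η_zero : η 0 = Pool.Agent.N916.GB.eta := by
  unfold η
  rw [Finset.prod_range_zero, one_pow, mul_one, zero_pow two_ne_zero, pow_zero, div_one]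
  rfl

theorem sums : 0.866 < ∑ i ∈ Finset.range 2, η i ∧ 0.994 < ∑ i ∈ Finset.range 3, η i ∧
    0.9996 < ∑ i ∈ Finset.range 4, η i := by
  have h := Pool.Agent.N916.GB.eta_bounds.1
  have e : ∀ k, η k = Pool.Agent.N916.GB.eta /
      (2 ^ (k ^ 2) * (∏ i ∈ Finset.range k, (1 - (1 / 2 : ℝ) ^ (i + 1))) ^ 2) := fun k => rfl
  refine ⟨?_, ?_, ?_⟩
  · simp only [Finset.sum_range_succ, Finset.sum_range_zero, e, Finset.prod_range_succ,
      Finset.prod_range_zero]
    norm_num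
    linarith
  · simp only [Finset.sum_range_succ, Finset.sum_range_zero, e, Finset.prod_range_succ,
      Finset.prod_range_zero]
    norm_num
    linarith
  · simp only [Finset.sum_range_succ, Finset.sum_range_zero, e, Finset.prod_range_succ,
      Finset.prod_range_zero]
    norm_num
    linarith

end proof

/-- **The law of the Selmer groups of the quadratic twists of products of elliptic curves without
complex multiplication, and of the 2-torsion of their Tate-Shafarevich groups.** -/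
theorem result :
    -- the curves
    (∀ u v : ℤ, Pair u v →
      (∀ m : ℕ, m ≠ 0 → (E u v m).Δ ≠ 0 ∧ (E u v m).c₄ ^ 3 / (E u v m).Δ =
        ((64 * (8 * r u v ^ 2 - 3 * s u v ^ 2) ^ 3 : ℤ) : ℚ) / ((s u v ^ 4 * t u v ^ 2 : ℤ) : ℚ)) ∧
      IsCoprime (64 * (8 * r u v ^ 2 - 3 * s u v ^ 2) ^ 3) (s u v ^ 4 * t u v ^ 2) ∧
      1 < |s u v * t u v|) ∧
    -- the orders of the groups
    (∀ (u v : ℤ) (m : ℕ), Pair u v → Admissible u v m →
      Nat.card (SelE u v m) = 2 ^ (corank m + 1) ∧ Nat.card (SelE' u v m) = 2 ^ (corank m + 1) ∧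
      Finite (ShaTwo (E u v m)) ∧
      2 ^ rank (E u v m) * Nat.card (ShaTwo (E u v m)) ≤ 4 ^ corank m ∧
      (Finite (E u v m).toAffine.Point → 2 ^ corank m ≤ Nat.card (ShaTwo (E u v m)))) ∧
    -- finite sets of curves
    (∀ I : Finset (ℤ × ℤ), I.Nonempty → (∀ q ∈ I, Pair q.1 q.2) → ∀ N b : ℕ, 0 < N → b.Coprime N →
      (∃ m, Common I m ∧ m % N = b) →
      (∀ k : ℕ,
        Proportion (fun m => Common I m ∧ m % N = b) (fun m => ∀ q ∈ I,
          Nat.card (SelE q.1 q.2 m) = 2 ^ (k + 1) ∧ Nat.card (SelE' q.1 q.2 m) = 2 ^ (k + 1))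
            (η k) ∧
        Proportion (fun m => Common I m ∧ m % N = b) (fun m => ∀ q ∈ I,
          Nat.card (SelE q.1 q.2 m) ≠ 2 ^ (k + 1) ∧ Nat.card (SelE' q.1 q.2 m) ≠ 2 ^ (k + 1))
            (1 - η k) ∧
        ∀ c : ℝ, c < ∑ i ∈ Finset.range (k + 1), η i → ∀ᶠ X : ℕ in atTop,
          c * (num (fun m => Common I m ∧ m % N = b) (fun _ => True) X : ℝ) ≤
          (num (fun m => Common I m ∧ m % N = b) (fun m => ∀ q ∈ I,
            2 ^ rank (E q.1 q.2 m) * Nat.card (ShaTwo (E q.1 q.2 m)) ≤ 4 ^ k) X : ℝ)) ∧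
      ∃ a : ℝ, 0 < a ∧ ∀ᶠ X : ℕ in atTop,
        a * X ≤ (num (fun m => Common I m ∧ m % N = b) (fun _ => True) X : ℝ)) ∧
    -- the constants
    HasSum η 1 ∧ 0.2887 < η 0 ∧ 0.866 < ∑ i ∈ Finset.range 2, η i ∧
    0.994 < ∑ i ∈ Finset.range 3, η i ∧ 0.9996 < ∑ i ∈ Finset.range 4, η i ∧
    -- existence
    (∀ I : Finset (ℤ × ℤ), (∀ q ∈ I, Pair q.1 q.2) →
      (∀ q ∈ I, ∀ q' ∈ I, q ≠ q' →
        IsCoprime (s q.1 q.2 * t q.1 q.2) (s q'.1 q'.2 * t q'.1 q'.2)) → ∃ m, Common I m) ∧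
    (∃ w : ℕ → ℤ × ℤ, (∀ i, Pair (w i).1 (w i).2) ∧ Pairwise fun i j =>
      IsCoprime (s (w i).1 (w i).2 * t (w i).1 (w i).2) (s (w j).1 (w j).2 * t (w j).1 (w j).2)) := by
  refine ⟨fun u v h => ⟨fun m hm => Run7.h843.N.j_eq (good_of h) hm rfl,
    Run7.h843.N.cop_j (good_of h), one_lt h⟩, fun u v m h hm => ⟨(sel1 h hm _).2 rfl,
    (sel2 h hm _).2 rfl, (rank_sha h hm).1, (rank_sha h hm).2, sha_lower h hm⟩,
    fun I hI hP N b hN hbc hex => ⟨prop_main hI hP hN hbc hex, prop_low hP hN hbc hex⟩,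
    ?_, ?_, sums.1, sums.2.1, sums.2.2, ?_, ?_⟩
  · have e : η = Run7.h843.L.gk := funext η_eq
    rw [e]
    exact Run7.h843.L.gk_hasSum
  · rw [η_zero]
    exact Pool.Agent.N916.GB.eta_bounds.1
  · intro I hP hc
    obtain ⟨m, h1, h2⟩ := Run7.h843.N.exists_com (fun q hq => good_of (hP q hq)) hc
    exact ⟨m, common_iff.2 ⟨h1, h2⟩⟩
  · obtain ⟨w, h1, h2⟩ := Run7.h843.N.exists_pairs
    refine ⟨w, fun i => ⟨(h1 i).1.1, Int.odd_iff.2 (h1 i).1.2, fun h0 => ?_⟩, h2⟩
    have h3 := (h1 i).2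
    have hc := (h1 i).1.1
    have h4 : (Run7.h843.N.ss (w i).1 (w i).2 * Run7.h843.N.tt (w i).1 (w i).2) = 1 := by
      unfold Run7.h843.N.ss Run7.h843.N.tt
      rcases mul_eq_zero.1 h0 with h | h
      · rw [h] at hc ⊢
        rcases Int.isUnit_iff.1 (isCoprime_zero_left.1 hc) with h5 | h5 <;> rw [h5] <;> norm_num
      · rw [h] at hc ⊢
        rcases Int.isUnit_iff.1 (isCoprime_zero_right.1 hc) with h5 | h5 <;> rw [h5] <;> norm_num
    rw [h4] at h3
    norm_num at h3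

end Pool.Agent.Results.MP_03e5d0_nt.CorankLawNonCMTwists
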