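import Pool.Agent.Run7.h428.WM
import Pool.Agent.Results.MP_03e5d0_nt.FullClassX49

/-!
# Twists of `X_0(49)` by `a² + b²`, the pairs `(a, b)` in an arbitrary dense set of lattice points

`E_N` is the quadratic twist by `N` of `X_0(49) : y² + x y = x³ - x² - 2 x - 1`. The pairs `v = (a, b)` of
integers are ordered by the norm `nm v = a² + b²`; the class consists of the pairs such that the
squarefree part of `a² + b²` is odd (two thirds of all pairs). Let
`c = ∏_{i ≥ 0} (1 - 2^{-(2i+1)}) = 0.4194...`, and call `N` good if `E_N` has analytic rank zero, finitely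
many rational points and `Ш[2] = 0`.

Here the pairs run over an ARBITRARY set `A` of lattice points, of which we know only that its upper
density is large enough.
* MIXING: let `A` have upper density at least `δ` in the class, and let `V ⊆ T` be finite sets of
  squarefree numbers with all prime factors `≡ 1 mod 4`. For every `ε > 0` and for all but finitely many
  such numbers `m`, the set of the `v ∈ A` such that `V` is exactly the set of the `t ∈ T` with
  `nm v · m · t` good has upper density at least `c ^ |V| (1 - c) ^ (|T| - |V|) δ - ε` in the class.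
* UNIVERSALITY: let `A` have positive upper density in the class, or upper density greater than `1/3`
  among ALL the lattice points. Then for EVERY set `Φ` of finite sets of natural numbers there are
  `z_0, z_1, ...` in `A`, with increasing norms and with no nontrivial relations between them modulo
  squares, such that for all finite sets `S` with at least two elements the product
  `∏_{i ∈ S} nm (z_i)` is good if and only if `S ∈ Φ`. Note that this is the norm of the product of the
  Gaussian integers `z_i`, `i ∈ S`.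

In particular every such `A` contains an infinite sequence such that the twists by all the products of two
or more of the norms have analytic rank zero.
-/

set_option autoImplicit false

open Filter Topology

namespace Pool.Agent.Results.MP_03e5d0_nt.LatticePointsDenseSets

open Pool.Agent.Results.MP_4a9ea6_nt.TwoPartTwistsX49 (E twist)
open Pool.Agent.Results.MP_92892c_nt.FullClassTwoPartX49 (RankZeroShaTwo)
open Pool.Agent.Results.MP_03e5d0_nt.FullClassX49 (AnalyticRankZero)

/-- `D` is squarefree and all its prime factors are `≡ 1 mod 4`. -/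
def InClass (D : ℕ) : Prop := Squarefree D ∧ ∀ p ∈ D.primeFactors, p % 4 = 1

/-- The norm `a² + b²` of the pair `v = (a, b)` of integers. -/
def nm (v : ℤ × ℤ) : ℕ := v.1.natAbs ^ 2 + v.2.natAbs ^ 2

/-- The class of the pairs: `a² + b²` is not zero and its squarefree part is odd. -/
def OddSquarefreePart : Set (ℤ × ℤ) := {v | nm v ≠ 0 ∧ Even ((nm v).factorization 2)}

/-- The number of the pairs `v` in `A` with norm at most `X`. -/
noncomputable def num (A : Set (ℤ × ℤ)) (X : ℕ) : ℕ := Nat.card {v : ℤ × ℤ // nm v ≤ X ∧ v ∈ A}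

/-- The upper density of `A` in `C` is at least `δ`: for every `ε > 0` there are arbitrarily large `X`
such that at least the proportion `δ - ε` of the pairs in `C` with norm at most `X` is in `A`. -/
def UpperDensityGe (C A : Set (ℤ × ℤ)) (δ : ℝ) : Prop :=
  ∀ ε : ℝ, 0 < ε → ∃ᶠ X : ℕ in atTop, (δ - ε) * (num C X : ℝ) ≤ (num (C ∩ A) X : ℝ)

/-- The twist by `N`, which is the twist `E_D` by the squarefree part `D` of `N`, has analytic rank zero,
finitely many rational points and no element of order two in `Ш`. -/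
def Good (N : ℕ) : Prop :=
  ∃ D k : ℕ, InClass D ∧ 0 < k ∧ N = D * k ^ 2 ∧ AnalyticRankZero D ∧ RankZeroShaTwo D

/-- The constant `0.4194...`. -/
noncomputable def c : ℝ := ∏' i : ℕ, (1 - (1 / 2 : ℝ) ^ (2 * i + 1))

section proof

open Run7.h428.MixG Run7.h428.UniG Run7.h428.WP Run7.h428.WM
open Pool.Agent.Y698.SG (n4)
open Pool.Agent.R413.SQ (Gd)
open Pool.Agent.Results.MP_03e5d0_nt.FullClassX49 (sel_det an_of)

theorem cls_eq : OddSquarefreePart = Cls := by
  ext v
  unfold OddSquarefreePart Cls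
  rw [Set.mem_ofPred_eq, Set.mem_ofPred_eq, Run7.h238.Pairs.mem_oddP, Nat.not_odd_iff_even]
  exact Iff.rfl

theorem sel_an {D : ℕ} (h : InClass D) (h1 : RankZeroShaTwo D) : AnalyticRankZero D :=
  an_of h ((sel_det h).1 h1)

theorem crit (D : ℕ) (h : InClass D) :
    (AnalyticRankZero D ∧ RankZeroShaTwo D) ↔ Gd n4 D.primeFactors := by
  rw [← Pool.Agent.R413.SQ.Cor.det_iff h, ← sel_det h]
  exact ⟨fun h1 => h1.2, fun h1 => ⟨sel_an h h1, h1⟩⟩

theorem good_sq {D : ℕ} (hD : InClass D) (k : ℕ) (hk : 0 < k) :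
    Good (D * k ^ 2) ↔ RankZeroShaTwo D := by
  show SqP (fun D => AnalyticRankZero D ∧ RankZeroShaTwo D) _ ↔ _
  rw [sqP_sq hD hk]
  exact ⟨fun h => h.2, fun h => ⟨sel_an hD h, h⟩⟩

theorem num_cls_inter' (A : Set (ℤ × ℤ)) (X : ℕ) :
    (num (OddSquarefreePart ∩ A) X : ℝ) = cn (Run7.h238.Pairs.CX X) A := by
  rw [cls_eq]
  exact Run7.h428.WM.num_cls_inter A X

theorem num_cls' (X : ℕ) : num OddSquarefreePart X = (Run7.h238.Pairs.CX X).card := by
  rw [cls_eq]
  exact Run7.h428.WM.num_cls X

theorem ud_iff (A : Set (ℤ × ℤ)) (δ : ℝ) :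
    UpperDensityGe OddSquarefreePart A δ ↔ UD Run7.h238.Pairs.CX A δ := by
  unfold UpperDensityGe UD
  simp only [num_cls_inter', num_cls']

end proof

/-- **Twists by the norms of the elements of an arbitrary dense set of lattice points.** -/
theorem result :
    (∀ D k : ℕ, InClass D → 0 < k → (Good (D * k ^ 2) ↔ RankZeroShaTwo D)) ∧
    0.4194 < c ∧ c < 0.4195 ∧
    (∀ (A : Set (ℤ × ℤ)) (δ ε : ℝ), UpperDensityGe OddSquarefreePart A δ → 0 < ε →
      ∀ T V : Finset ℕ, (∀ t ∈ T, InClass t) → V ⊆ T →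
        {m : ℕ | InClass m ∧ ¬ UpperDensityGe OddSquarefreePart
          {v | v ∈ A ∧ ∀ t ∈ T, (Good (nm v * m * t) ↔ t ∈ V)}
          (c ^ V.card * (1 - c) ^ (T.card - V.card) * δ - ε)}.Finite) ∧
    ∀ (A : Set (ℤ × ℤ)), ((∃ δ : ℝ, 0 < δ ∧ UpperDensityGe OddSquarefreePart A δ) ∨
        ∃ δ : ℝ, 1 / 3 < δ ∧ UpperDensityGe Set.univ A δ) → ∀ Φ : Set (Finset ℕ),
      ∃ z : ℕ → ℤ × ℤ, (∀ i, nm (z i) < nm (z (i + 1))) ∧
        (∀ i, z i ∈ A ∧ z i ∈ OddSquarefreePart) ∧
        (∀ S T : Finset ℕ, IsSquare ((∏ i ∈ S, nm (z i)) * ∏ i ∈ T, nm (z i)) → S = T) ∧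
        ∀ S : Finset ℕ, 2 ≤ S.card → (Good (∏ i ∈ S, nm (z i)) ↔ S ∈ Φ) := by
  have hc1 : 0.4194 < c := Pool.Agent.Y948.CQ.t_C2.2.2.2.1
  have hc2 : c < 0.4195 := Pool.Agent.Y948.CQ.t_C2.2.2.2.2
  refine ⟨fun D k hD hk => good_sq hD k hk, hc1, hc2, fun A δ ε hA hε T V hT hV => ?_,
    fun A hA Φ => ?_⟩
  · have h := Run7.h428.WM.mixing crit ((ud_iff A δ).1 hA) hε hT hV
    refine h.subset ?_
    rintro m ⟨hm, h1⟩
    refine ⟨hm, fun h2 => h1 ?_⟩
    rw [ud_iff]
    exact h2
  · have hL : Run7.h428.UniG.Large Run7.h238.Pairs.CX A := by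
      rcases hA with ⟨δ, hδ, h1⟩ | ⟨δ, hδ, h1⟩
      · exact ⟨δ, hδ, (ud_iff A δ).1 h1⟩
      · refine Run7.h428.WM.large_of_third hδ fun ε hε => (h1 ε hε).mono fun X hX => ?_
        rw [Set.univ_inter] at hX
        exact hX
    obtain ⟨z, h1, h2, h3, h4⟩ := Run7.h428.WM.universal crit hL Φ
    rw [cls_eq]
    exact ⟨z, h1, h2, h3, h4⟩

end Pool.Agent.Results.MP_03e5d0_nt.LatticePointsDenseSets
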