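import Pool.Agent.Run7.h428.WM
import Pool.Agent.Results.MP_03e5d0_nt.FullClassX49

/-!
# Simultaneous analytic rank zero of several curves twisted by `a² + b²`: the exact law for all pairs
# `(a, b)` of integers

`E_D` is the quadratic twist by `D` of `X_0(49) : y² + x y = x³ - x² - 2 x - 1`; for `N ≥ 1` the twist by
`N` is the twist by the squarefree part of `N`. Let `M_1, ..., M_k` be any different squarefree numbers
with all prime factors `≡ 1 mod 4`, and consider the curves `E_{M_1}, ..., E_{M_k}`, twisted by the values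
`a² + b²` of the norm form at ALL the pairs `(a, b)` of integers. The pairs are ordered by `a² + b²`; for
two thirds of them the squarefree part of `a² + b²` is odd (this is the class of the pairs). Let
`c = ∏_{i ≥ 0} (1 - 2^{-(2i+1)}) = 0.4194...`, and call `N` good if the twist `E_N` has analytic rank zero,
finitely many rational points and `Ш[2] = 0`.

THEOREM. For every subset `V` of `T = {M_1, ..., M_k}` the pairs of the class such that `V` is exactly the
set of the `M ∈ T` with `M (a² + b²)` good have the proportion `c^|V| (1 - c)^(k - |V|)` in the class and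
the proportion `(2/3) c^|V| (1 - c)^(k - |V|)` among all the pairs of integers.

In particular the `k` twisted `L`-functions are all different from zero at the central point for at
least the proportion `(2/3) c^k` of all the pairs of integers, and the goodness of the `k` twists is
asymptotically independent. The squarefree numbers with all prime factors `≡ 1 mod 4` have density zero,
but the values `a² + b²` are counted with their multiplicities (essentially `2 ^ ω`), so that these are
natural densities in the lattice of all pairs. For one `M` the law was proved by helper238 and helper843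
(`MP_696deb_nt/TwistsBySumsOfTwoSquares`, `MP_9c97e9_nt/TwoPartSumsOfTwoSquares`), for the numbers `D`
(without the multiplicities) it is the starting file `FullClassX49` of this page. New here is the joint
law for the numbers with the weights `2 ^ ω` and a bounded function of the small primes
(`Run7/h428/WA .. WM`); the count of the pairs is helper238's `sum_pairs`.
-/

set_option autoImplicit false

open Filter Topology

namespace Pool.Agent.Results.MP_03e5d0_nt.LatticePointsJointLaw

open Pool.Agent.Results.MP_4a9ea6_nt.TwoPartTwistsX49 (E twist)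
open Pool.Agent.Results.MP_92892c_nt.FullClassTwoPartX49 (RankZeroShaTwo)
open Pool.Agent.Results.MP_03e5d0_nt.FullClassX49 (AnalyticRankZero)

/-- `D` is squarefree and all its prime factors are `≡ 1 mod 4`. -/
def InClass (D : ℕ) : Prop := Squarefree D ∧ ∀ p ∈ D.primeFactors, p % 4 = 1

/-- The norm `a² + b²` of the pair `v = (a, b)` of integers. -/
def nm (v : ℤ × ℤ) : ℕ := v.1.natAbs ^ 2 + v.2.natAbs ^ 2

/-- The class of the pairs: `a² + b²` is not zero and its squarefree part is odd. -/
def OddSquarefreePart : Set (ℤ × ℤ) := {v | nm v ≠ 0 ∧ Even ((nm v).factorization 2)}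

/-- The number of the pairs `v` in `A` with norm at most `X`. -/
noncomputable def num (A : Set (ℤ × ℤ)) (X : ℕ) : ℕ := Nat.card {v : ℤ × ℤ // nm v ≤ X ∧ v ∈ A}

/-- The twist by `N`, which is the twist `E_D` by the squarefree part `D` of `N`, has analytic rank zero,
finitely many rational points and no element of order two in `Ш`. -/
def Good (N : ℕ) : Prop :=
  ∃ D k : ℕ, InClass D ∧ 0 < k ∧ N = D * k ^ 2 ∧ AnalyticRankZero D ∧ RankZeroShaTwo D

/-- The constant `0.4194...`. -/
noncomputable def c : ℝ := ∏' i : ℕ, (1 - (1 / 2 : ℝ) ^ (2 * i + 1))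

section proof

open Run7.h428.MixG Run7.h428.WP Run7.h428.WM
open Pool.Agent.Y698.SG (n4)
open Pool.Agent.R413.SQ (Gd)
open Pool.Agent.Results.MP_03e5d0_nt.FullClassX49 (sel_det an_of)

theorem cls_eq : OddSquarefreePart = Cls := by
  ext v
  unfold OddSquarefreePart Cls
  rw [Set.mem_ofPred_eq, Set.mem_ofPred_eq, Run7.h238.Pairs.mem_oddP, Nat.not_odd_iff_even]
  exact Iff.rfl

theorem sel_an {D : ℕ} (h : InClass D) (h1 : RankZeroShaTwo D) : AnalyticRankZero D :=
  an_of h ((sel_det h).1 h1)

theorem crit (D : ℕ) (h : InClass D) :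
    (AnalyticRankZero D ∧ RankZeroShaTwo D) ↔ Gd n4 D.primeFactors := by
  rw [← Pool.Agent.R413.SQ.Cor.det_iff h, ← sel_det h]
  exact ⟨fun h1 => h1.2, fun h1 => ⟨sel_an h h1, h1⟩⟩

theorem good_eq : Good = SqP fun D => AnalyticRankZero D ∧ RankZeroShaTwo D := rfl

theorem good_sq {D : ℕ} (hD : InClass D) (k : ℕ) (hk : 0 < k) :
    Good (D * k ^ 2) ↔ RankZeroShaTwo D := by
  rw [good_eq, sqP_sq hD hk]
  exact ⟨fun h => h.2, fun h => ⟨sel_an hD h, h⟩⟩

theorem decomp {v : ℤ × ℤ} (hv : v ∈ OddSquarefreePart) {M : ℕ} (hM : InClass M) :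
    ∃ D k : ℕ, InClass D ∧ 0 < k ∧ M * nm v = D * k ^ 2 := by
  rw [cls_eq] at hv
  obtain ⟨k, hk, h⟩ := two hv hM
  exact ⟨_, k, (Run7.h428.Inst.adm_of_mask (Run7.h428.Inst.am_symm (cls_am hv)
    (Run7.h428.Inst.am_pf hM))).1, hk, h⟩

theorem num_cls_inter' (A : Set (ℤ × ℤ)) (X : ℕ) :
    (num (OddSquarefreePart ∩ A) X : ℝ) = cn (Run7.h238.Pairs.CX X) A := by
  rw [cls_eq]
  exact Run7.h428.WM.num_cls_inter A X

theorem num_cls' (X : ℕ) : num OddSquarefreePart X = (Run7.h238.Pairs.CX X).card := by
  rw [cls_eq]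
  exact Run7.h428.WM.num_cls X

theorem num_univ' (X : ℕ) : num Set.univ X = (Run7.h238.Pairs.Bx X).card :=
  Run7.h428.WM.num_univ X

end proof

/-- **The joint law for all pairs of integers.** -/
theorem result :
    (∀ v ∈ OddSquarefreePart, ∀ M : ℕ, InClass M →
      ∃ D k : ℕ, InClass D ∧ 0 < k ∧ M * nm v = D * k ^ 2) ∧
    (∀ D k : ℕ, InClass D → 0 < k → (Good (D * k ^ 2) ↔ RankZeroShaTwo D)) ∧
    (∀ T V : Finset ℕ, (∀ M ∈ T, InClass M) → V ⊆ T →
      Tendsto (fun X : ℕ =>
        (num (OddSquarefreePart ∩ {v | ∀ M ∈ T, (Good (M * nm v) ↔ M ∈ V)}) X : ℝ) /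
          (num OddSquarefreePart X : ℝ)) atTop
        (𝓝 (c ^ V.card * (1 - c) ^ (T.card - V.card))) ∧
      Tendsto (fun X : ℕ =>
        (num (OddSquarefreePart ∩ {v | ∀ M ∈ T, (Good (M * nm v) ↔ M ∈ V)}) X : ℝ) /
          (num Set.univ X : ℝ)) atTop
        (𝓝 (2 / 3 * (c ^ V.card * (1 - c) ^ (T.card - V.card))))) ∧
    0.4194 < c ∧ c < 0.4195 := by
  have hcc : Pool.Agent.Y703.CQ.c2 = c := rfl
  have hc1 : 0.4194 < c := Pool.Agent.Y948.CQ.t_C2.2.2.2.1
  have hc2 : c < 0.4195 := Pool.Agent.Y948.CQ.t_C2.2.2.2.2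
  refine ⟨fun v hv M hM => decomp hv hM, fun D k hD hk => good_sq hD k hk,
    fun T V hT hV => ?_, hc1, hc2⟩
  have h := Run7.h428.WM.joint crit hT hV
  rw [hcc] at h
  refine ⟨?_, ?_⟩
  · simp only [num_cls_inter', num_cls']
    exact h
  · simp only [num_cls_inter', num_univ']
    exact Run7.h428.WM.to_all h

end Pool.Agent.Results.MP_03e5d0_nt.LatticePointsJointLaw
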