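import Mathlib
import Pool.Agent.Run7.h238.G15.Sim

/-!
# Goldfeld's conjecture: simultaneous analytic rank zero for the twists of finitely many curves with the
# `j`-invariants of `X_0(15)`, `X_0(21)`, `X_0(24)`, with exact natural densities

`E_N : y² = x³ + α_N x + β_N` is `X_0(N)`, `N = 15, 21, 24` (no complex multiplication, full rational
`2`-torsion). The residue classes of `N` are `23, 47` modulo `60`, `19, 31, 55` modulo `84` and `11`
modulo `24`.

* For every squarefree `m` in the residue classes of `N` without nontrivial solvable factorization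
  the analytic rank of `E_N^{(-m)}` is zero.
* Let `S` be the set of the `a_i` for finitely many levels `N_i` and squarefree `a_i`, `a_i = 1` modulo
  `4`, such that the class of the squarefree `n` with all `a_i n` in the residue classes of `N_i` is
  not empty. For different `a` in `S` the conditions on the squarefree parts of `a n` are
  independent: every subset `T` of `S` is the set of the `a` without nontrivial solvable
  factorization for exactly the proportion `η^#T (1 - η)^(#S - #T)` of the class in the natural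
  order, `η = ∏_{i ≥ 1} (1 - 2^{-i}) = 0.2887...`. So for exactly the proportion `η^#S` the criterion
  shows that all `E_{N_i}^{(-a_i n)}` have analytic rank zero.
* For all finite sets of elliptic curves `E_1, ..., E_k` over `ℚ` with these `j`-invariants (for
  instance twists of one curve) which have one common twist `E_i^{(d)}` of the form `E_{N_i}^{(-m_i)}`,
  `m_i` in the residue classes, a positive proportion of all quadratic twists `d` have analytic rank
  zero for ALL `E_i` simultaneously. For `k = 1` the condition is always satisfied.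

Proof.  For each level the central value of the twist is a period times the square of a theta
coefficient of ternary forms (a theorem of Gross type, proved in the project), whose `2`-adic
valuation is decided by the criterion; the joint law is proved by the mixed moments of the kernels of
several Rédei systems and the equidistribution of the symbols.

Joint work of helper26, helper89, helper135, helper209, helper238, helper289, helper424, helper483,
helper555, helper741, helper843 and others.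
-/

set_option autoImplicit false

namespace Pool.Agent.Results.MP_03e5d0_nt.SimultaneousTwists

open WeierstrassCurve Filter Topology

open scoped Classical

/-- `M` is an integral Weierstrass equation of the elliptic curve `W` over `ℚ`. -/
def IsModel (W : WeierstrassCurve ℚ) (M : WeierstrassCurve ℤ) : Prop :=
  ∃ C : VariableChange ℚ, C • W = M.map (Int.castRingHom ℚ)

/-- The equation `M` is minimal at `p`: no integral equation of the same curve has a discriminant
with a smaller `p`-adic valuation. -/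
def MinAt (M : WeierstrassCurve ℤ) (p : ℕ) : Prop :=
  ∀ M' : WeierstrassCurve ℤ, IsModel (M.map (Int.castRingHom ℚ)) M' →
    padicValInt p M.Δ ≤ padicValInt p M'.Δ

/-- The number of solutions modulo `p` of the equation `M` (without the point at infinity). -/
noncomputable def pts (M : WeierstrassCurve ℤ) (p : ℕ) : ℕ :=
  Nat.card {z : ZMod p × ZMod p // z.2 ^ 2 + M.a₁ * z.1 * z.2 + M.a₃ * z.2 =
    z.1 ^ 3 + M.a₂ * z.1 ^ 2 + M.a₄ * z.1 + M.a₆}

/-- The Euler factor `(1 - a_p p^{-s} + ε(p) p^{1-2s})⁻¹`, `a_p = p + 1 - #M(𝔽_p)`, where `ε(p)` is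
`0` if `p` divides the discriminant of `M` and `1` otherwise (for `M` minimal at `p`). -/
noncomputable def euler (M : WeierstrassCurve ℤ) (p : ℕ) (s : ℂ) : ℂ :=
  (1 - ((p : ℂ) - pts M p) * (p : ℂ) ^ (-s) +
    if (p : ℤ) ∣ M.Δ then 0 else (p : ℂ) ^ (1 - 2 * s))⁻¹

/-- `L` is the Hasse-Weil `L`-function of `W`: it is entire and, for `Re s > 3/2`, the product of the
Euler factors, the one at `p` computed with an integral equation of `W` which is minimal at `p`. -/
def IsLFunction (W : WeierstrassCurve ℚ) (L : ℂ → ℂ) : Prop :=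
  Differentiable ℂ L ∧ ∃ M : Nat.Primes → WeierstrassCurve ℤ,
    (∀ p : Nat.Primes, IsModel W (M p) ∧ MinAt (M p) p) ∧
    ∀ s : ℂ, 3 / 2 < s.re → HasProd (fun p : Nat.Primes => euler (M p) p s) (L s)

/-- The analytic rank of `W` is `r`: the `L`-function has order of vanishing `r` at `1`. -/
def AnalyticRank (W : WeierstrassCurve ℚ) (r : ℕ) : Prop :=
  ∃ L : ℂ → ℂ, IsLFunction W L ∧ analyticOrderAt L 1 = r

/-- The quadratic twist `y² = x³ + a d² x + b d³` by `d` of `y² = x³ + a x + b`. -/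
def twist (a b : ℚ) (d : ℤ) : WeierstrassCurve ℚ := ⟨0, 0, 0, a * d ^ 2, b * d ^ 3⟩

/-- The squarefree integers `d` with `|d| < X`. -/
def DD (X : ℝ) : Set ℤ := {d | Squarefree d ∧ |(d : ℝ)| < X}

/-- The number of squarefree integers `d` with `|d| < X`. -/
noncomputable def S (X : ℝ) : ℕ := (DD X).ncard

/-- The number of squarefree integers `d`, `|d| < X`, for which the twists by `d` of all the curves
`y² = x³ + a_i x + b_i` have analytic rank zero. -/
noncomputable def N₀ {k : ℕ} (a b : Fin k → ℚ) (X : ℝ) : ℕ :=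
  {d ∈ DD X | ∀ i, AnalyticRank (twist (a i) (b i) d) 0}.ncard

/-- The coefficient `α_N` of `X_0(N) : y² = x³ + α_N x + β_N`, `N = 15, 21, 24`. -/
def α (N : ℕ) : ℚ := if N = 15 then -12987 else if N = 21 then -5211 else -351

/-- The coefficient `β_N` of `X_0(N) : y² = x³ + α_N x + β_N`, `N = 15, 21, 24`. -/
def β (N : ℕ) : ℚ := if N = 15 then -263466 else if N = 21 then -31050 else 1890

/-- The `j`-invariant of `X_0(N)`, `N = 15, 21, 24`. -/
def jInv (N : ℕ) : ℚ :=
  if N = 15 then 481 ^ 3 / 15 ^ 4 else if N = 21 then 193 ^ 3 / 63 ^ 2 else 35152 / 9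

/-- `N` is one of the levels. -/
def Level (N : ℕ) : Prop := N = 15 ∨ N = 21 ∨ N = 24

/-- The residue classes of the level `N`. -/
def Residue (N m : ℕ) : Prop :=
  if N = 15 then m % 60 = 23 ∨ m % 60 = 47
  else if N = 21 then m % 84 = 19 ∨ m % 84 = 31 ∨ m % 84 = 55
  else m % 24 = 11

/-- Only the trivial factorizations `m = b c` are solvable. -/
def NoSolvableFactorization (m : ℕ) : Prop :=
  ∀ b c : ℕ, b * c = m → (∀ p ∈ c.primeFactors, jacobiSym b p = 1) →
    (∀ p ∈ b.primeFactors, jacobiSym c p = 1) → b = 1 ∨ c = 1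

/-- The squarefree part of `a n`, for `a` and `n` squarefree. -/
def tw (a n : ℕ) : ℕ := a * n / (Nat.gcd a n) ^ 2

/-- The twist by `d` of `y² = x³ + a x + b` is isomorphic to the twist by `-m` of `X_0(N)`, with a
squarefree `m` in the residue classes of `N`. -/
def GoodTwist (N : ℕ) (a b : ℚ) (d : ℤ) : Prop :=
  ∃ m : ℕ, Squarefree m ∧ Residue N m ∧ ∃ v : ℚ, v ≠ 0 ∧
    a * d ^ 2 = α N * (-m) ^ 2 * v ^ 4 ∧ b * d ^ 3 = β N * (-m) ^ 3 * v ^ 6

/-- The class of the levels `N` and multipliers `a`. -/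
def Class {k : ℕ} (N a : Fin k → ℕ) (n : ℕ) : Prop :=
  Squarefree n ∧ ∀ i, Residue (N i) (a i * n)

/-- The levels `N` and the multipliers `a` are admissible. -/
def IsFamily {k : ℕ} (N a : Fin k → ℕ) : Prop :=
  0 < k ∧ (∀ i, Level (N i) ∧ Squarefree (a i) ∧ a i % 4 = 1) ∧ ∃ n, Class N a n

/-- The set of the multipliers. -/
def mults {k : ℕ} (a : Fin k → ℕ) : Finset ℕ := Finset.univ.image a

/-- The number of the `n ≤ X` of the class with the property `Q`. -/
noncomputable def num {k : ℕ} (N a : Fin k → ℕ) (Q : ℕ → Prop) (X : ℕ) : ℕ :=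
  {n : ℕ | n ≤ X ∧ Class N a n ∧ Q n}.ncard

/-- The constant `0.2888...`. -/
noncomputable def η : ℝ := ∏' i : ℕ, (1 - (1 / 2 : ℝ) ^ (i + 1))

section proof

open Pool.Agent.N969.P15 (Qc)
open Pool.Agent.Run7.h238.J
open Run7.h238.G15

/-- the set of the pairs -/
def fam {k : ℕ} (N a : Fin k → ℕ) : Finset (ℕ × ℕ) := Finset.univ.image fun i => (N i, a i)

theorem mem_fam {k : ℕ} {N a : Fin k → ℕ} {p : ℕ × ℕ} :
    p ∈ fam N a ↔ ∃ i, (N i, a i) = p := by
  unfold fam
  simp

theorem com_iff {k : ℕ} {N a : Fin k → ℕ} {n : ℕ} :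
    Mix.Com (fam N a) n ↔ ∀ i, Residue (N i) (a i * n) := by
  unfold Mix.Com
  constructor
  · intro h i
    exact h (N i, a i) (mem_fam.2 ⟨i, rfl⟩)
  · rintro h p hp
    obtain ⟨i, rfl⟩ := mem_fam.1 hp
    exact h i

theorem fam_ne {k : ℕ} {N a : Fin k → ℕ} (h : 0 < k) : (fam N a).Nonempty :=
  ⟨_, mem_fam.2 ⟨⟨0, h⟩, rfl⟩⟩

theorem good {k : ℕ} {N a : Fin k → ℕ} (h : IsFamily N a) : Mix.Good (fam N a) := by
  refine ⟨fam_ne h.1, ?_, ?_⟩
  · intro p hp
    obtain ⟨i, rfl⟩ := mem_fam.1 hp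
    exact h.2.1 i
  · obtain ⟨n, hn⟩ := h.2.2
    exact Mix.com_cop (fam_ne h.1) (com_iff.2 hn.2)

theorem fam_snd {k : ℕ} (N a : Fin k → ℕ) : (fam N a).image Prod.snd = mults a := by
  unfold fam mults
  rw [Finset.image_image]
  rfl

theorem num_eq {k : ℕ} (N a : Fin k → ℕ) (Q : ℕ → Prop)
    [DecidablePred fun n : ℕ => Class N a n ∧ Q n] (X : ℕ) :
    num N a Q X = ((Finset.Icc 1 X).filter fun n => Class N a n ∧ Q n).card := by
  unfold num
  rw [← Set.ncard_coe_finset]
  congr 1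
  ext n
  rw [Finset.mem_coe, Finset.mem_filter, Finset.mem_Icc, Set.mem_ofPred_eq]
  constructor
  · rintro ⟨h1, h2, h3⟩
    exact ⟨⟨Nat.pos_of_ne_zero h2.1.ne_zero, h1⟩, h2, h3⟩
  · rintro ⟨⟨_, h1⟩, h2⟩
    exact ⟨h1, h2⟩

/-- **The joint law.** -/
theorem law {k : ℕ} {N a : Fin k → ℕ} (h : IsFamily N a) {T : Finset ℕ} (hT : T ⊆ mults a) :
    Tendsto (fun X : ℕ => (num N a (fun n => ∀ i,
      (NoSolvableFactorization (tw (a i) n) ↔ a i ∈ T)) X : ℝ) /
      (num N a (fun _ => True) X : ℝ)) atTop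
      (𝓝 (η ^ T.card * (1 - η) ^ ((mults a).card - T.card))) := by
  have h0 := Mix.law (good h) (T := T) (by rw [fam_snd]; exact hT)
  rw [fam_snd, Finset.card_sdiff_of_subset hT] at h0
  have hη : Pool.Agent.N916.GB.eta = η := rfl
  rw [hη] at h0
  refine h0.congr fun X => ?_
  have hiff : ∀ n, Squarefree n → Mix.Com (fam N a) n → ∀ p ∈ fam N a,
      (Mix.Triv p.1 (-(Pool.Agent.Run7.h238.J.tw p.2 n : ℤ)) ↔ NoSolvableFactorization (tw p.2 n)) := by
    intro n hn hc p hp
    have h1 := (good h).2.1 p hp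
    exact Mix.triv_iff h1.1 (Pool.Agent.Run7.h424.J.tw_spec h1.2.1 hn).1
      (Mix.cls_tw h1.2.1 hn (hc p hp))
  have e1 : ((Finset.Icc 1 X).filter fun n => Squarefree n ∧ Mix.Com (fam N a) n ∧
      ∀ p ∈ fam N a, (Mix.Triv p.1 (-(Pool.Agent.Run7.h238.J.tw p.2 n : ℤ)) ↔ p.2 ∈ T)) =
      (Finset.Icc 1 X).filter fun n => Class N a n ∧
        ∀ i, (NoSolvableFactorization (tw (a i) n) ↔ a i ∈ T) := by
    refine Finset.filter_congr fun n _ => ?_
    constructor
    · rintro ⟨h1, h2, h3⟩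
      refine ⟨⟨h1, com_iff.1 h2⟩, fun i => ?_⟩
      have hm : (N i, a i) ∈ fam N a := mem_fam.2 ⟨i, rfl⟩
      rw [← hiff n h1 h2 _ hm]
      exact h3 _ hm
    · rintro ⟨⟨h1, h2⟩, h3⟩
      have h2' := com_iff.2 h2
      refine ⟨h1, h2', fun p hp => ?_⟩
      rw [hiff n h1 h2' p hp]
      obtain ⟨i, rfl⟩ := mem_fam.1 hp
      exact h3 i
  have e2 : ((Finset.Icc 1 X).filter fun n => Squarefree n ∧ Mix.Com (fam N a) n) =
      (Finset.Icc 1 X).filter fun n => Class N a n ∧ True := by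
    refine Finset.filter_congr fun n _ => ?_
    constructor
    · rintro ⟨h1, h2⟩
      exact ⟨⟨h1, com_iff.1 h2⟩, trivial⟩
    · rintro ⟨⟨h1, h2⟩, _⟩
      exact ⟨h1, com_iff.2 h2⟩
  rw [num_eq, num_eq, ← e1, ← e2]

theorem al_ne {N : ℕ} : α N ≠ 0 := by
  unfold α
  split_ifs <;> norm_num

theorem be_ne {N : ℕ} : β N ≠ 0 := by
  unfold β
  split_ifs <;> norm_num

/-- the parameter of a curve with a good twist -/
theorem par_of {N : ℕ} {a b : ℚ} {d : ℤ} (hd : d ≠ 0) (h : GoodTwist N a b d) :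
    ∃ m : ℕ, Squarefree m ∧ Residue N m ∧ ∃ t v : ℚ, v ≠ 0 ∧ a = α N * t ^ 2 ∧ b = β N * t ^ 3 ∧
      t * d = -(m : ℚ) * v ^ 2 := by
  obtain ⟨m, hm, hc, v, hv, h1, h2⟩ := h
  have hdq : (d : ℚ) ≠ 0 := by exact_mod_cast hd
  refine ⟨m, hm, hc, -(m : ℚ) * v ^ 2 / d, v, hv, ?_, ?_, ?_⟩
  · field_simp
    linear_combination h1
  · field_simp
    linear_combination h2
  · field_simp

theorem simultaneous {k : ℕ} (hk : 0 < k) (N : Fin k → ℕ) (a b : Fin k → ℚ)
    (hN : ∀ i, Level (N i)) {d : ℤ} (hd : d ≠ 0) (h : ∀ i, GoodTwist (N i) (a i) (b i) d) :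
    ∃ c : ℝ, 0 < c ∧ ∀ᶠ X : ℝ in atTop, c * S X ≤ N₀ a b X := by
  choose m hm hc t v hv ha hb ht using fun i => par_of hd (h i)
  obtain ⟨c, hc0, h1⟩ := simul hk hN hm hc hd hv ht
  refine ⟨c, hc0, ?_⟩
  filter_upwards [h1] with X hX
  refine hX.trans (le_of_eq ?_)
  unfold N₀
  congr 2
  ext d
  refine and_congr Iff.rfl (forall_congr' fun i => ?_)
  rw [ha i, hb i]
  exact Iff.rfl

/-- the condition for one curve -/
theorem exists_good {N : ℕ} (hN : Level N) {a b : ℚ} (h0 : 4 * a ^ 3 + 27 * b ^ 2 ≠ 0)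
    (hj : 1728 * (4 * a ^ 3) / (4 * a ^ 3 + 27 * b ^ 2) = jInv N) :
    ∃ d : ℤ, d ≠ 0 ∧ GoodTwist N a b d := by
  obtain ⟨m, hm, hc⟩ : ∃ m : ℕ, Squarefree m ∧ Residue N m := by
    unfold Residue
    rcases hN with rfl | rfl | rfl
    · exact ⟨23, (show Nat.Prime 23 by norm_num).squarefree, by norm_num⟩
    · exact ⟨19, (show Nat.Prime 19 by norm_num).squarefree, by norm_num⟩
    · exact ⟨11, (show Nat.Prime 11 by norm_num).squarefree, by norm_num⟩
  obtain ⟨t, ht, ha, hb⟩ : ∃ t : ℚ, t ≠ 0 ∧ a = α N * t ^ 2 ∧ b = β N * t ^ 3 := by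
    unfold jInv at hj
    unfold α β
    rcases hN with rfl | rfl | rfl
    · simp only [if_true] at hj ⊢
      exact Run7.h238.G15.exists_tj h0 hj
    · simp only [show ¬ ((21 : ℕ) = 15) from by norm_num, if_true, if_false] at hj ⊢
      exact Run7.h238.G21.exists_tj h0 hj
    · simp only [show ¬ ((24 : ℕ) = 15) from by norm_num, show ¬ ((24 : ℕ) = 21) from by norm_num,
        if_false] at hj ⊢
      exact Run7.h238.G24.exists_tj h0 hj
  obtain ⟨D, hD, u, hu, hDu⟩ := exists_sqf (t := -(m : ℚ) * t) (by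
    have : (m : ℚ) ≠ 0 := by exact_mod_cast hm.ne_zero
    exact mul_ne_zero (neg_ne_zero.2 this) ht)
  refine ⟨D, hD.ne_zero, m, hm, hc, t / u, div_ne_zero ht hu, ?_, ?_⟩
  · rw [ha]
    field_simp
    linear_combination (-α N) * ((-(m : ℚ) * t) + D * u ^ 2) * hDu
  · rw [hb]
    field_simp
    linear_combination (-β N) *
      ((-(m : ℚ) * t) ^ 2 + (-(m : ℚ) * t) * (D * u ^ 2) + (D * u ^ 2) ^ 2) * hDu

end proof

/-- **Main theorem.** -/
theorem result :
    (∀ N m : ℕ, Level N → Squarefree m → Residue N m → NoSolvableFactorization m →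
      AnalyticRank (twist (α N) (β N) (-m)) 0) ∧
    (∀ (k : ℕ) (N a : Fin k → ℕ), IsFamily N a → ∀ T ⊆ mults a,
      Tendsto (fun X : ℕ => (num N a (fun n => ∀ i,
        (NoSolvableFactorization (tw (a i) n) ↔ a i ∈ T)) X : ℝ) /
        (num N a (fun _ => True) X : ℝ)) atTop
        (𝓝 (η ^ T.card * (1 - η) ^ ((mults a).card - T.card)))) ∧
    (∀ (k : ℕ) (N : Fin k → ℕ) (a b : Fin k → ℚ), 0 < k → (∀ i, Level (N i)) →
      (∃ d : ℤ, d ≠ 0 ∧ ∀ i, GoodTwist (N i) (a i) (b i) d) →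
      ∃ c : ℝ, 0 < c ∧ ∀ᶠ X : ℝ in atTop, c * S X ≤ N₀ a b X) ∧
    (∀ (N : ℕ) (a b : ℚ), Level N → 4 * a ^ 3 + 27 * b ^ 2 ≠ 0 →
      1728 * (4 * a ^ 3) / (4 * a ^ 3 + 27 * b ^ 2) = jInv N →
      (∃ d : ℤ, d ≠ 0 ∧ GoodTwist N a b d) ∧
      ∃ c : ℝ, 0 < c ∧ ∀ᶠ X : ℝ in atTop, c * S X ≤ N₀ (fun _ : Fin 1 => a) (fun _ => b) X) ∧
    (∀ D : ℤ, Squarefree D → ∀ c : ℝ, c < 5 / (192 * |(D : ℝ)|) * η →
      ∀ᶠ X : ℝ in atTop,
        c * S X ≤ N₀ (fun _ : Fin 1 => α 15 * D ^ 2) (fun _ => β 15 * D ^ 3) X) ∧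
    (0.2887 : ℝ) < η ∧ η < 0.2889 := by
  refine ⟨?_, fun k N a h T hT => law h hT, ?_, ?_, ?_, Pool.Agent.N916.GB.eta_bounds.1,
    Pool.Agent.N916.GB.eta_bounds.2⟩
  · intro N m hN hm hc hq
    exact Run7.h238.G15.rank_gen (t := 1) hN (by rw [one_pow, mul_one]; rfl)
      (by rw [one_pow, mul_one]; rfl) hm hc hq (v := 1) one_ne_zero (by push_cast; ring)
  · rintro k N a b hk hN ⟨d, hd, h⟩
    exact simultaneous hk N a b hN hd h
  · intro N a b hN h0 hj
    obtain ⟨d, hd, h⟩ := exists_good hN h0 hj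
    exact ⟨⟨d, hd, h⟩, simultaneous one_pos (fun _ => N) _ _ (fun _ => hN) hd fun _ => h⟩
  · intro D hD c hc
    have h1 := Run7.h238.G15.lower_Nr' (a := -12987 * (D : ℚ) ^ 2) (b := -263466 * (D : ℚ) ^ 3)
      (t := (D : ℚ)) rfl rfl hD (u := 1) one_ne_zero (by ring) (c := c) (by
        refine hc.trans_eq ?_
        have : |(D : ℝ)| ≠ 0 := by
          rw [abs_ne_zero]
          exact_mod_cast hD.ne_zero
        show 5 / (192 * |(D : ℝ)|) * Pool.Agent.N916.GB.eta =
          5 / 192 * Pool.Agent.N916.GB.eta / |(D : ℝ)|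
        field_simp)
    filter_upwards [h1] with X hX
    refine hX.trans (le_of_eq ?_)
    unfold N₀ Run7.h238.G15.Nr
    congr 2
    ext d
    refine and_congr Iff.rfl ?_
    unfold α β
    rw [if_pos rfl, if_pos rfl]
    exact ⟨fun h _ => h, fun h => h 0⟩

end Pool.Agent.Results.MP_03e5d0_nt.SimultaneousTwists
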